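import Pool.Agent.GRB.Main

/-!
# Minimum augmentation to a globally rigid graph in the plane is solvable in polynomial time

`f x = (k, L)`: `k = aug(G)` and `L` is an optimal set of new edges, for every input graph `G`. Global
rigidity is meant geometrically, for generic frameworks in the plane. The theorems of Pollaczek-Geiringer,
Laman, Hendrickson and Jackson-Jordan that are needed are proved in the modules `GRB`, nothing is assumed.
-/

namespace Pool.Agent.Results.MP_d7d610_lc.GlobalRigidityAugmentation

open Pool.Agent.GRA.Stmt

theorem result : ∃ f : Inst → ℕ × List (ℕ × ℕ),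
    Nonempty (Turing.TM2ComputableInPolyTime Inst.encode encodeOut f) ∧
    ∀ x, Solves (fun {n} G => GloballyRigid (n := n) G) x (f x) :=
  Pool.Agent.GRB.main

end Pool.Agent.Results.MP_d7d610_lc.GlobalRigidityAugmentation
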